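import Pool.Agent.MP_ea150c_mp.H16.FSpec

/-! Diagonal operators on cochains and their supertrace. -/

namespace Pool.Agent.MP_ea150c_mp.H26

open H49 H16

variable {O E I : Type} [CommRing O] [AddCommGroup E] [Module O E] [LinearOrder I]
  (M : Finset I → Submodule O E)

/-- Evaluation of a cochain. -/
def trdR (J : Finset I) : Coch M →ₗ[O] M J where
  toFun x := ⟨x.1 J, x.2.2 J⟩
  map_add' _ _ := rfl
  map_smul' _ _ := rfl

/-- The cochain supported at one nonempty set. -/
def trdA (J : Finset I) (hJ : J.Nonempty) : M J →ₗ[O] Coch M where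
  toFun y := ⟨Pi.single J y.1, Pi.single_eq_of_ne hJ.ne_empty.symm _, fun K => by
    by_cases h : K = J
    · subst h
      rw [Pi.single_eq_same]
      exact y.2
    · rw [Pi.single_eq_of_ne h]
      exact (M K).zero_mem⟩
  map_add' y z := Subtype.ext (Pi.single_add (f := fun _ => E) J y.1 z.1)
  map_smul' c y := Subtype.ext (Pi.single_smul (f := fun _ => E) J c y.1)

/-- Cochains as a product. -/
def trdE : Coch M ≃ₗ[O] ((J : {J : Finset I // J.Nonempty}) → M J.1) where
  toFun x J := trdR M J.1 x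
  map_add' _ _ := rfl
  map_smul' _ _ := rfl
  invFun y := ⟨fun J => if h : J.Nonempty then (y ⟨J, h⟩).1 else 0, by simp, fun J => by
    by_cases h : J.Nonempty
    · simp only [dif_pos h]
      exact (y ⟨J, h⟩).2
    · simp only [dif_neg h]
      exact (M J).zero_mem⟩
  left_inv x := Subtype.ext (funext fun J => by
    by_cases h : J.Nonempty
    · exact dif_pos h
    · refine (dif_neg h).trans ?_
      rw [Finset.not_nonempty_iff_eq_empty.1 h]
      exact x.2.1.symm)
  right_inv y := funext fun J => Subtype.ext (dif_pos J.2)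

/-- The diagonal operator. -/
def trdD (Φ : ∀ J, M J →ₗ[O] M J) : Coch M →ₗ[O] Coch M where
  toFun x := ⟨fun J => (Φ J (trdR M J x)).1, by
    have h : trdR M ∅ x = 0 := Subtype.ext x.2.1
    simp only [h, map_zero, ZeroMemClass.coe_zero], fun J => (Φ J _).2⟩
  map_add' x y := Subtype.ext (funext fun J => by simp)
  map_smul' c x := Subtype.ext (funext fun J => by simp)

omit [LinearOrder I] in
theorem trd_pow (Φ : ∀ J, M J →ₗ[O] M J) (J : Finset I) (k : ℕ) (x : Coch M) :
    trdR M J ((trdD M Φ ^ k) x) = (Φ J ^ k) (trdR M J x) := by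
  induction k with
  | zero => rfl
  | succ k ih =>
    rw [pow_succ', pow_succ', Module.End.mul_apply, Module.End.mul_apply, ← ih]
    rfl

theorem trd_id [Fintype I] :
    ∑ J : {J : Finset I // J.Nonempty}, trdA M J.1 J.2 ∘ₗ trdR M J.1 = LinearMap.id := by
  refine LinearMap.ext fun x => Subtype.ext (funext fun K => ?_)
  rw [LinearMap.sum_apply, AddSubmonoidClass.coe_finsetSum, Finset.sum_apply]
  change ∑ J : {J : Finset I // J.Nonempty}, (Pi.single J.1 (x.1 J.1) : Finset I → E) K = x.1 K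
  by_cases h : K.Nonempty
  · rw [Finset.sum_eq_single ⟨K, h⟩ (fun J _ hJ => Pi.single_eq_of_ne
      (fun e => hJ (Subtype.ext e.symm)) _) (by simp), Pi.single_eq_same]
  · obtain rfl := Finset.not_nonempty_iff_eq_empty.1 h
    rw [x.2.1]
    exact Finset.sum_eq_zero fun J _ => Pi.single_eq_of_ne J.2.ne_empty.symm _

theorem trD : TrD := by
  intro O E I _ _ _ _ _ M hM
  have h1 : ∀ J : {J : Finset I // J.Nonempty}, Module.Finite O (M J.1) := fun J => (hM J.1 J.2).1
  have h2 : ∀ J : {J : Finset I // J.Nonempty}, Module.Free O (M J.1) := fun J => (hM J.1 J.2).2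
  have h3 : Module.Finite O (Coch M) := Module.Finite.equiv (trdE M).symm
  have h4 : Module.Free O (Coch M) := Module.Free.of_equiv (trdE M).symm
  refine ⟨h3, h4, fun Φ => ⟨trdD M Φ, fun _ _ => rfl, fun s hs k => ?_⟩⟩
  have h5 : s ∘ₗ trdD M Φ ^ k = ∑ J : {J : Finset I // J.Nonempty},
      trdA M J.1 J.2 ∘ₗ (trdR M J.1 ∘ₗ (s ∘ₗ trdD M Φ ^ k)) := by
    conv_lhs => rw [← LinearMap.id_comp (s ∘ₗ trdD M Φ ^ k), ← trd_id M]
    ext x
    simp
  rw [h5, map_sum, altSum, Finset.sum_subtype (p := fun J : Finset I => J.Nonempty) _ (by simp)]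
  refine Finset.sum_congr rfl fun J _ => ?_
  have h6 : (trdR M J.1 ∘ₗ (s ∘ₗ trdD M Φ ^ k)) ∘ₗ trdA M J.1 J.2 =
      ((-1 : O) ^ (J.1.card - 1)) • Φ J.1 ^ k := by
    refine LinearMap.ext fun y => Subtype.ext ?_
    have e1 : trdR M J.1 (trdA M J.1 J.2 y) = y := Subtype.ext (Pi.single_eq_same _ _)
    have e2 := congrArg Subtype.val (trd_pow M Φ J.1 k (trdA M J.1 J.2 y))
    have e3 : J.1.card + 1 = J.1.card - 1 + 2 := by have := J.2.card_pos; omega
    rw [e1] at e2
    refine (hs _ J.1).trans ?_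
    rw [e3, pow_add, neg_one_sq, mul_one]
    exact congrArg _ e2
  rw [LinearMap.trace_comp_comm', h6, map_smul, smul_eq_mul]

end Pool.Agent.MP_ea150c_mp.H26
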