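import Pool.Agent.MP_ea150c_mp.H20.SpecM

/-! Expansion of the network determinant. -/

namespace Pool.Agent.MP_ea150c_mp.H26

open Matrix H20 Finset

theorem blk_diag {F n : Type} [Field F] [Fintype n] [DecidableEq n] (N : Matrix n n F)
    (d : n → F) : (N + diagonal d).det =
      ∑ s : Finset n, (∏ i ∈ sᶜ, d i) * (N.submatrix (↑) (↑) : Matrix s s F).det := by
  have h := (detRowAlternating (n := n) (R := F)).toMultilinearMap.map_add_univ N.row
    (diagonal d).row
  refine h.trans (sum_congr rfl fun s _ => ?_)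
  have h1 := (detRowAlternating (n := n) (R := F)).toMultilinearMap.map_piecewise_smul d
    (s.piecewise N.row (1 : Matrix n n F).row) sᶜ
  rw [← det_piecewise_one_eq_submatrix_det]
  refine Eq.trans ?_ h1
  congr 1
  funext i j
  by_cases hi : i ∈ s
  · simp [hi]
  · simp [hi, diagonal_apply, one_apply]

theorem blk_card {F a b : Type} [Field F] [Fintype a] [DecidableEq a] [Fintype b]
    (X : Matrix a b F) (Z : Matrix b a F) (h : X * Z = 1) : Fintype.card a ≤ Fintype.card b := by
  have h1 := (rank_mul_le_left X Z).trans (rank_le_card_width X)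
  rwa [h, rank_one] at h1

theorem blk_zero {F a b : Type} [Field F] [Fintype a] [DecidableEq a] [Fintype b] [DecidableEq b]
    (X : Matrix a b F) (Y : Matrix b a F) (h : Fintype.card a ≠ Fintype.card b) :
    (fromBlocks 0 X Y 0).det = 0 := by
  by_contra h0
  have h1 := mul_nonsing_inv _ (Ne.isUnit h0)
  rw [← fromBlocks_toBlocks (fromBlocks 0 X Y 0)⁻¹, fromBlocks_multiply, ← fromBlocks_one,
    fromBlocks_inj] at h1
  simp only [Matrix.zero_mul, zero_add, add_zero] at h1
  exact h (le_antisymm (blk_card _ _ h1.1) (blk_card _ _ h1.2.2.2))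

theorem blk_sq {F a : Type} [Field F] [Fintype a] [DecidableEq a] (A : Matrix a a F) :
    (fromBlocks 0 (-A) Aᵀ 0).det = A.det ^ 2 := by
  have h : fromBlocks 0 (-A) Aᵀ 0 = fromBlocks 1 (-1) 0 1 * fromBlocks 1 0 1 1 *
      fromBlocks 1 (-1) 0 1 * fromBlocks Aᵀ 0 0 A := by
    simp [fromBlocks_multiply]
  rw [h, det_mul, det_mul, det_mul, det_fromBlocks_zero₂₁, det_fromBlocks_zero₁₂,
    det_fromBlocks_zero₂₁, det_one, det_transpose]
  ring

theorem sBlk : SBlk := by
  intro F E I _ _ _ _ _ B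
  refine ⟨fun T => (fromBlocks 0 (-(B.submatrix (fun e : T => (e : E)) id))
    (B.submatrix (fun e : T => (e : E)) id)ᵀ 0).det, fun α => ?_, fun T hT => ?_, fun T φ => ?_⟩
  · have h : fromBlocks (diagonal α) (-B) Bᵀ 0 =
        fromBlocks 0 (-B) Bᵀ 0 + diagonal (Sum.elim α 0) := by
      rw [← fromBlocks_diagonal, fromBlocks_add]
      simp
    rw [h, blk_diag, ← (Finset.sumEquiv (α := E) (β := I)).symm.toEquiv.sum_comp,
      Fintype.sum_prod_type]
    refine sum_congr rfl fun T _ => ?_
    have hc : ∀ U : Finset I, (T.disjSum U)ᶜ = Tᶜ.disjSum Uᶜ := fun U => by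
      ext (e | i) <;> simp
    rw [sum_eq_single_of_mem univ (mem_univ _) fun U _ hU => ?_]
    · change (∏ i ∈ (T.disjSum univ)ᶜ, _) * (submatrix _ (fun x : T.disjSum (univ : Finset I) => x.1)
        (fun x : T.disjSum (univ : Finset I) => x.1)).det = _
      rw [hc, prod_disjSum, compl_univ, prod_empty, mul_one]
      let ψ : T ⊕ I ≃ T.disjSum (univ : Finset I) :=
        { toFun := Sum.elim (fun e => ⟨Sum.inl e.1, by simp⟩) fun i => ⟨Sum.inr i, by simp⟩
          invFun := fun x => match x with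
            | ⟨Sum.inl e, he⟩ => Sum.inl ⟨e, by simpa using he⟩
            | ⟨Sum.inr i, _⟩ => Sum.inr i
          left_inv := by rintro (e | i) <;> rfl
          right_inv := by rintro ⟨e | i, _⟩ <;> rfl }
      rw [← det_submatrix_equiv_self ψ]
      congr 2
      ext (e | i) (e' | i') <;> rfl
    · change (∏ i ∈ (T.disjSum U)ᶜ, _) * _ = _
      obtain ⟨i, hi⟩ : Uᶜ.Nonempty := nonempty_iff_ne_empty.2 fun e => hU (compl_eq_empty_iff _ |>.1 e)
      rw [hc, prod_disjSum, prod_eq_zero hi rfl, mul_zero, zero_mul]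
  · exact blk_zero _ _ (by rwa [Fintype.card_coe])
  · rw [← blk_sq]
    beta_reduce
    rw [← det_submatrix_equiv_self (Equiv.sumCongr φ (Equiv.refl I))]
    congr 1
    ext (e | i) (e' | i') <;> rfl

end Pool.Agent.MP_ea150c_mp.H26
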