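import Pool.Agent.MP_ea150c_mp.H20.SpecR

/-! Splitting off the unit eigenvalue and the eigenvalues of small slope. -/

namespace Pool.Agent.MP_ea150c_mp.H26

open Polynomial H20

variable {p : ℕ} [Fact p.Prime]

theorem norm_io (x : ℤ_[p]) : ‖io p x‖ = ‖x‖ := by
  rw [io, IsScalarTower.algebraMap_apply ℤ_[p] ℚ_[p] (Kp p), norm_algebraMap']
  rfl

theorem dvd_iff (x : ℤ_[p]) (n : ℕ) : (p : ℤ_[p]) ^ n ∣ x ↔ ‖x‖ ≤ ((p : ℝ) ^ n)⁻¹ := by
  rw [← Ideal.mem_span_singleton, ← PadicInt.norm_le_pow_iff_mem_span_pow, zpow_neg, zpow_natCast]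

theorem ps_le {s : Multiset (Kp p)} {r : ℝ} (hr : 0 ≤ r) (h : ∀ γ ∈ s, ‖γ‖ ≤ r) (k : ℕ) :
    ‖ps s k‖ ≤ r ^ k := by
  induction s using Multiset.induction_on with
  | empty => simpa [ps] using pow_nonneg hr k
  | cons a s ih =>
    have h1 := ih fun γ hγ => h γ (Multiset.mem_cons_of_mem hγ)
    have h2 : ‖a ^ k‖ ≤ r ^ k := by
      rw [norm_pow]
      exact pow_le_pow_left₀ (norm_nonneg _) (h a (Multiset.mem_cons_self _ _)) k
    rw [ps, Multiset.map_cons, Multiset.sum_cons]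
    exact (IsUltrametricDist.norm_add_le_max _ _).trans (max_le h2 h1)

theorem sum_lt {s : Multiset (Kp p)} (h : ∀ γ ∈ s, ‖γ‖ < 1) : ‖ps s 1‖ < 1 := by
  induction s using Multiset.induction_on with
  | empty => simp [ps]
  | cons a s ih =>
    have h1 := ih fun γ hγ => h γ (Multiset.mem_cons_of_mem hγ)
    rw [ps, Multiset.map_cons, Multiset.sum_cons, pow_one]
    exact (IsUltrametricDist.norm_add_le_max _ _).trans_lt
      (max_lt (h a (Multiset.mem_cons_self _ _)) h1)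

theorem pow_le_prod {A : Type} {s : Multiset A} {f : A → ℝ} {a : ℝ} (ha : 0 ≤ a)
    (h : ∀ x ∈ s, a ≤ f x) : a ^ s.card ≤ (s.map f).prod := by
  induction s using Multiset.induction_on with
  | empty => simp
  | cons x s ih =>
    have h1 := h x (Multiset.mem_cons_self _ _)
    rw [Multiset.map_cons, Multiset.prod_cons, Multiset.card_cons, pow_succ']
    exact mul_le_mul h1 (ih fun y hy => h y (Multiset.mem_cons_of_mem hy)) (pow_nonneg ha _)
      (ha.trans h1)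

theorem io_trace (hP : SPow) {ι : Type} [Fintype ι] [DecidableEq ι] (M : Matrix ι ι ℤ_[p])
    (k : ℕ) : io p (M ^ k).trace = ps (M.map (io p)).charpoly.roots k := by
  rw [← hP, AddMonoidHom.map_trace, Matrix.map_pow]

theorem pad {R : Type} [CommRing R] {e d : ℕ} (h : e ≤ d) (Λ : Matrix (Fin e) (Fin e) R) :
    ∃ Λ' : Matrix (Fin d) (Fin d) R, ∀ k, 1 ≤ k → (Λ' ^ k).trace = (Λ ^ k).trace := by
  obtain ⟨n, rfl⟩ := Nat.exists_eq_add_of_le h
  refine ⟨Matrix.reindexAlgEquiv R R finSumFinEquiv (Matrix.fromBlocks Λ 0 0 0), fun k hk => ?_⟩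
  rw [← map_pow, Matrix.fromBlocks_diagonal_pow, zero_pow (by omega), Matrix.trace, Matrix.trace,
    ← finSumFinEquiv.sum_comp, Fintype.sum_sum_type]
  simp

open Classical in
theorem cut (hP : SPow) (hF : SFac) {ι : Type} [Fintype ι] [DecidableEq ι] (M : Matrix ι ι ℤ_[p])
    {r : ℝ} (hr : 0 ≤ r) {d : ℕ}
    (hd : ((M.map (io p)).charpoly.roots.filter fun γ => r < ‖γ‖).card ≤ d) :
    ∃ Λ : Matrix (Fin d) (Fin d) ℤ_[p], ∀ k, 1 ≤ k →
      ‖(M ^ k).trace - (Λ ^ k).trace‖ ≤ r ^ k := by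
  obtain ⟨e, Λ, h⟩ := hF p M.charpoly r M.charpoly_monic
  rw [← Matrix.charpoly_map] at h
  have he : e ≤ d := by
    rw [← h, IsAlgClosed.card_roots_eq_natDegree, Matrix.charpoly_natDegree_eq_dim,
      Fintype.card_fin] at hd
    exact hd
  obtain ⟨Λ', h'⟩ := pad he Λ
  refine ⟨Λ', fun k hk => ?_⟩
  rw [h' k hk, ← norm_io, map_sub, io_trace hP, io_trace hP, h]
  conv_lhs => enter [1, 1, 1]; rw [← Multiset.filter_add_not (fun γ => r < ‖γ‖)
    (M.map (io p)).charpoly.roots]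
  rw [ps, Multiset.map_add, Multiset.sum_add, ps, add_sub_cancel_left]
  exact ps_le hr (fun γ hγ => not_lt.1 (Multiset.mem_filter.1 hγ).2) k

theorem even (hP : SPow) (hG : SGN) (hF : SFac) {ι : Type} [Fintype ι] [DecidableEq ι]
    (M : Matrix ι ι ℤ_[p]) (lv : ι → ℕ) (h0 : ∀ i j, lv i = 0 → lv j = 0 → i = j)
    (h1 : ∀ i j, lv i = 1 → (p : ℤ_[p]) ∣ M i j)
    (h2 : ∀ i j, 1 ≤ lv i → (lv j ≤ 1 ∨ 2 ≤ lv i) → (p : ℤ_[p]) ^ 2 ∣ M i j)
    (hu : IsUnit M.trace) :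
    ∃ u : ℤ_[p], ∀ k, 1 ≤ k → (p : ℤ_[p]) ^ (k + k / 2) ∣ (M ^ k).trace - u ^ k := by
  classical
  obtain ⟨q, hq1, hq⟩ : ∃ q : ℝ, 1 ≤ q ∧ (p : ℝ) = q ^ 2 :=
    ⟨√p, Real.one_le_sqrt.2 (Nat.one_le_cast.2 (Fact.out : p.Prime).one_le),
      (Real.sq_sqrt (Nat.cast_nonneg p)).symm⟩
  have hq0 : 0 < q := one_pos.trans_le hq1
  have hq3 : 1 ≤ q ^ 3 := one_le_pow₀ hq1
  have hb := hG p ι (M.map (io p)) (fun i => if lv i = 0 then 1 else (q ^ 3)⁻¹)
    (fun i => if lv i ≤ 1 then 1 else q) (q ^ 3) (by positivity)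
    (fun i => by split_ifs <;> positivity) fun i j => by
      have c1 : 1 ≤ if lv j ≤ 1 then (1 : ℝ) else q := by split_ifs <;> [rfl; exact hq1]
      rw [Matrix.map_apply, norm_io]
      by_cases e0 : lv i = 0
      · rw [if_pos e0, if_pos (by omega), mul_one, one_mul]
        exact (PadicInt.norm_le_one _).trans c1
      rw [if_neg e0]
      by_cases e1 : lv j ≤ 1 ∨ 2 ≤ lv i
      · have h3 := (dvd_iff _ _).1 (h2 i j (by omega) e1)
        have c2 : (if lv i ≤ 1 then (1 : ℝ) else q) ≤ q := by split_ifs <;> [exact hq1; rfl]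
        calc _ ≤ ((p : ℝ) ^ 2)⁻¹ * q := mul_le_mul h3 c2 (by split_ifs <;> positivity) (by positivity)
          _ = (q ^ 3)⁻¹ * 1 := by rw [hq]; field_simp
          _ ≤ _ := mul_le_mul_of_nonneg_left c1 (by positivity)
      · have h3 := (dvd_iff _ 1).1 ((pow_one (p : ℤ_[p])).symm ▸ h1 i j (by omega))
        rw [if_pos (by omega), if_neg (by omega), mul_one]
        refine h3.trans_eq ?_
        rw [hq]; field_simp
  have hr : ∏ i, max 1 ((if lv i = 0 then 1 else (q ^ 3)⁻¹) * q ^ 3) ≤ q ^ 3 := by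
    have e : ∀ i, max 1 ((if lv i = 0 then 1 else (q ^ 3)⁻¹) * q ^ 3) =
        if lv i = 0 then q ^ 3 else 1 := fun i => by
      split_ifs
      · rw [one_mul, max_eq_right hq3]
      · rw [inv_mul_cancel₀ (by positivity), max_self]
    simp only [e]
    rw [← Finset.prod_filter, Finset.prod_const]
    refine (pow_le_pow_right₀ hq3 (Finset.card_le_one.2 fun i hi j hj =>
      h0 i j (Finset.mem_filter.1 hi).2 (Finset.mem_filter.1 hj).2)).trans_eq (pow_one _)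
  obtain ⟨g, hg, hg1⟩ : ∃ g ∈ (M.map (io p)).charpoly.roots, 1 ≤ ‖g‖ := by
    by_contra hc
    push Not at hc
    have h3 := sum_lt hc
    rw [← io_trace hP, pow_one, norm_io, PadicInt.isUnit_iff.1 hu] at h3
    exact lt_irrefl _ h3
  obtain ⟨s, hs⟩ := Multiset.exists_cons_of_mem hg
  have hsm : ∀ γ ∈ s, ¬ (q ^ 3)⁻¹ < ‖γ‖ := fun γ hγ hlt => by
    obtain ⟨t, rfl⟩ := Multiset.exists_cons_of_mem hγ
    have h3 := hb.trans hr
    rw [hs, Multiset.map_cons, Multiset.prod_cons, Multiset.map_cons, Multiset.prod_cons] at h3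
    have h4 := pow_le_prod (s := t) (f := fun γ => max 1 (‖γ‖ * q ^ 3)) zero_le_one
      fun _ _ => le_max_left _ _
    rw [one_pow] at h4
    have h5 : q ^ 3 ≤ max 1 (‖g‖ * q ^ 3) :=
      (le_mul_of_one_le_left (by positivity) hg1).trans (le_max_right _ _)
    have h6 : 1 < max 1 (‖γ‖ * q ^ 3) :=
      ((inv_lt_iff_one_lt_mul₀ (by positivity)).1 hlt).trans_le (le_max_right _ _)
    have h7 := h6.trans_le (le_mul_of_one_le_right (by positivity) h4)
    nlinarith [mul_lt_mul_of_pos_left h7 (show 0 < max 1 (‖g‖ * q ^ 3) by positivity)]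
  obtain ⟨Λ, hΛ⟩ := cut hP hF M (r := (q ^ 3)⁻¹) (by positivity) (d := 1) (by
    rw [hs, Multiset.filter_cons, Multiset.filter_eq_nil.2 hsm]
    split_ifs <;> simp)
  refine ⟨Λ 0 0, fun k hk => (dvd_iff _ _).2 ?_⟩
  have h3 : (Λ ^ k).trace = Λ 0 0 ^ k := by
    rw [Matrix.trace_fin_one, ← Matrix.det_fin_one (Λ ^ k), ← Matrix.det_fin_one Λ, Matrix.det_pow]
  rw [← h3]
  refine (hΛ k hk).trans ?_
  rw [inv_pow, hq, ← pow_mul, ← pow_mul]
  exact inv_anti₀ (by positivity) (pow_le_pow_right₀ hq1 (by omega))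

theorem odd (hP : SPow) (hG : SGN) (hF : SFac) {ι : Type} [Fintype ι] [DecidableEq ι]
    (M : Matrix ι ι ℤ_[p]) (B : Finset ι) (d : ℕ) (hB : B.card ≤ d)
    (h1 : ∀ i j, i ∉ B → (p : ℤ_[p]) ∣ M i j) :
    ∃ Λ : Matrix (Fin d) (Fin d) ℤ_[p], ∀ k, 1 ≤ k →
      (p : ℤ_[p]) ^ (k / (d + 1)) ∣ (M ^ k).trace - (Λ ^ k).trace := by
  classical
  have hp1 : (1 : ℝ) ≤ p := Nat.one_le_cast.2 (Fact.out : p.Prime).one_le
  obtain ⟨q, hq1, hq⟩ : ∃ q : ℝ, 1 ≤ q ∧ (p : ℝ) = q ^ (d + 1) :=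
    ⟨(p : ℝ) ^ (((d + 1 : ℕ) : ℝ)⁻¹), Real.one_le_rpow hp1 (by positivity),
      (Real.rpow_inv_natCast_pow (Nat.cast_nonneg p) (Nat.succ_ne_zero d)).symm⟩
  have hq0 : 0 < q := one_pos.trans_le hq1
  have hb := hG p ι (M.map (io p)) (fun i => if i ∈ B then 1 else (p : ℝ)⁻¹) (fun _ => 1) p
    (by positivity) (fun _ => one_pos) fun i j => by
      rw [Matrix.map_apply, norm_io, mul_one, mul_one]
      split_ifs with e
      · exact PadicInt.norm_le_one _
      · simpa using (dvd_iff _ 1).1 ((pow_one (p : ℤ_[p])).symm ▸ h1 i j e)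
  have hr : ∏ i, max 1 ((if i ∈ B then 1 else (p : ℝ)⁻¹) * p) ≤ (p : ℝ) ^ d := by
    have e : ∀ i, max 1 ((if i ∈ B then 1 else (p : ℝ)⁻¹) * p) =
        if i ∈ B then (p : ℝ) else 1 := fun i => by
      split_ifs
      · rw [one_mul, max_eq_right hp1]
      · rw [inv_mul_cancel₀ (by positivity), max_self]
    simp only [e]
    rw [← Finset.prod_filter, Finset.prod_const, Finset.filter_mem_eq_inter, Finset.univ_inter]
    exact pow_le_pow_right₀ hp1 hB
  obtain ⟨Λ, hΛ⟩ := cut hP hF M (r := q⁻¹) (by positivity) (d := d) (by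
    by_contra hc
    push Not at hc
    have h3 := hb.trans hr
    rw [← Multiset.filter_add_not (fun γ => q⁻¹ < ‖γ‖) (M.map (io p)).charpoly.roots,
      Multiset.map_add, Multiset.prod_add] at h3
    have h4 := pow_le_prod (s := (M.map (io p)).charpoly.roots.filter fun γ => ¬ q⁻¹ < ‖γ‖)
      (f := fun γ => max 1 (‖γ‖ * p)) zero_le_one fun _ _ => le_max_left _ _
    have big : ∀ γ ∈ (M.map (io p)).charpoly.roots.filter fun γ => q⁻¹ < ‖γ‖,
        q ^ d < max 1 (‖γ‖ * p) := fun γ hγ => by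
      refine lt_of_lt_of_le ?_ (le_max_right _ _)
      calc q ^ d = q⁻¹ * p := by rw [hq]; field_simp; ring
        _ < _ := mul_lt_mul_of_pos_right (Multiset.mem_filter.1 hγ).2 (by positivity)
    generalize (M.map (io p)).charpoly.roots.filter (fun γ => q⁻¹ < ‖γ‖) = t at *
    obtain ⟨g, hg⟩ := Multiset.card_pos_iff_exists_mem.1 (Nat.zero_lt_of_lt hc)
    obtain ⟨t, rfl⟩ := Multiset.exists_cons_of_mem hg
    have h5 := pow_le_prod (s := t) (f := fun γ => max 1 (‖γ‖ * p)) (a := q ^ d) (by positivity)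
      fun γ hγ => (big γ (Multiset.mem_cons_of_mem hγ)).le
    rw [Multiset.card_cons] at hc
    have h6 : (q ^ d) ^ d ≤ (q ^ d) ^ t.card := pow_le_pow_right₀ (one_le_pow₀ hq1) (by omega)
    rw [one_pow] at h4
    rw [Multiset.map_cons, Multiset.prod_cons] at h3
    have h7 : (p : ℝ) ^ d = q ^ d * (q ^ d) ^ d := by rw [hq]; ring
    have h8 := mul_lt_mul (big g hg) (h6.trans h5) (by positivity) (by positivity)
    rw [← h7] at h8
    exact (h8.trans_le ((le_mul_of_one_le_right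
      ((by positivity : (0 : ℝ) ≤ (p : ℝ) ^ d).trans h8.le) h4).trans h3)).false)
  refine ⟨Λ, fun k hk => (dvd_iff _ _).2 ((hΛ k hk).trans ?_)⟩
  rw [inv_pow, hq, ← pow_mul]
  exact inv_anti₀ (by positivity) (pow_le_pow_right₀ hq1 (Nat.mul_div_le k (d + 1)))

theorem ofSplit : OfSplit := fun hP hG hF _ _ _ _ _ M =>
  ⟨fun lv => even hP hG hF M lv, fun B d => odd hP hG hF M B d⟩

end Pool.Agent.MP_ea150c_mp.H26
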